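import Mathlib
import Pool.Agent.N228.AZ.Stm2

set_option autoImplicit false

/-!
AZ2/MEAS (helper498, for helper228): measurability of the Multibrot sets and of the sets of attracting parameters.
-/

open Metric MeasureTheory Set Filter Topology Bornology

namespace Pool.Agent.N498.AZ

open Pool.Agent.W747.MB

lemma meas_multi (n : ℕ) : MeasurableSet (N62a1eb23.multibrotSet n) := by
  have hc : ∀ k : ℕ, Continuous (fun c : ℂ => (fun z : ℂ => z ^ n + c)^[k] 0) := by
    intro k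
    induction k with
    | zero => simpa using continuous_const
    | succ k ih =>
      simp only [Function.iterate_succ_apply']
      exact (ih.pow n).add continuous_id
  have h : N62a1eb23.multibrotSet n =
      {c : ℂ | Tendsto (fun k : ℕ => ‖(fun z : ℂ => z ^ n + c)^[k] 0‖) atTop atTop}ᶜ := by
    ext c
    simp only [N62a1eb23.multibrotSet, mem_setOf_eq, mem_compl_iff]
    rw [tendsto_norm_atTop_iff_cobounded]
  rw [h]
  exact (measurableSet_tendsto atTop (fun k => (hc k).norm.measurable)).compl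

/-- the iterates as functions of the parameter and the point -/
def Fm (n m : ℕ) (p : ℂ × ℂ) : ℂ := (f n p.1)^[m] p.2

/-- the derivatives of the iterates -/
noncomputable def Dm (n m : ℕ) (p : ℂ × ℂ) : ℂ := ∏ i ∈ Finset.range m, (n : ℂ) * Fm n i p ^ (n - 1)

lemma Fm_succ (n m : ℕ) (p : ℂ × ℂ) : Fm n (m + 1) p = Fm n m p ^ n + p.1 := by
  unfold Fm
  rw [Function.iterate_succ_apply']
  rfl

lemma Fm_cont (n m : ℕ) : Continuous (Fm n m) := by
  induction m with
  | zero => exact continuous_snd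
  | succ m ih =>
    have : Fm n (m + 1) = fun p => Fm n m p ^ n + p.1 := funext (Fm_succ n m)
    rw [this]
    exact (ih.pow n).add continuous_fst

lemma Dm_cont (n m : ℕ) : Continuous (Dm n m) := by
  unfold Dm
  exact continuous_finset_prod _ fun i _ => continuous_const.mul ((Fm_cont n i).pow _)

lemma fder (n : ℕ) (c w : ℂ) : HasDerivAt (f n c) ((n : ℂ) * w ^ (n - 1)) w :=
  (hasDerivAt_pow n w).add_const c

lemma hasDeriv (n m : ℕ) (c z : ℂ) : HasDerivAt ((f n c)^[m]) (Dm n m (c, z)) z := by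
  induction m with
  | zero => simpa [Dm] using hasDerivAt_id z
  | succ m ih =>
    have h2 := (fder n c ((f n c)^[m] z)).comp z ih
    rw [Function.iterate_succ']
    refine h2.congr_deriv ?_
    unfold Dm
    rw [Finset.prod_range_succ, mul_comm]
    rfl

lemma closed_proj {K : Set (ℂ × ℂ)} (hK : IsClosed K) (R : ℝ) (hR : ∀ p ∈ K, ‖p.2‖ ≤ R) :
    IsClosed {c : ℂ | ∃ z, (c, z) ∈ K} := by
  have : CompactSpace (closedBall (0 : ℂ) R) := isCompact_iff_compactSpace.1 (isCompact_closedBall _ _)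
  have h1 : IsClosed {q : ℂ × closedBall (0 : ℂ) R | (q.1, (q.2 : ℂ)) ∈ K} :=
    hK.preimage (by fun_prop)
  have h2 := isClosedMap_fst_of_compactSpace (X := ℂ) (Y := closedBall (0 : ℂ) R) _ h1
  convert h2
  ext c
  constructor
  · rintro ⟨z, hz⟩
    exact ⟨(c, ⟨z, by simpa using hR _ hz⟩), hz, rfl⟩
  · rintro ⟨q, hq, rfl⟩
    exact ⟨_, hq⟩

/-- the general set -/
lemma meas_gen (n m : ℕ) (J : Finset ℕ) : MeasurableSet {c : ℂ | ∃ z, Fm n m (c, z) = z ∧
    ‖Dm n m (c, z)‖ < 1 ∧ ∀ i ∈ J, Fm n i (c, z) ≠ z} := by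
  set K : ℕ → Set (ℂ × ℂ) := fun N => {p | ‖p.2‖ ≤ N ∧ Fm n m p = p.2 ∧
    ‖Dm n m p‖ ≤ 1 - 1 / ((N : ℝ) + 1) ∧ ∀ i ∈ J, 1 / ((N : ℝ) + 1) ≤ ‖Fm n i p - p.2‖} with hKdef
  have hK : ∀ N, IsClosed (K N) := by
    intro N
    have h1 : IsClosed {p : ℂ × ℂ | ‖p.2‖ ≤ N} := isClosed_le (by fun_prop) continuous_const
    have h2 : IsClosed {p : ℂ × ℂ | Fm n m p = p.2} := isClosed_eq (Fm_cont n m) continuous_snd
    have h3 : IsClosed {p : ℂ × ℂ | ‖Dm n m p‖ ≤ 1 - 1 / ((N : ℝ) + 1)} :=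
      isClosed_le (Dm_cont n m).norm continuous_const
    have h4 : IsClosed {p : ℂ × ℂ | ∀ i ∈ J, 1 / ((N : ℝ) + 1) ≤ ‖Fm n i p - p.2‖} := by
      have : {p : ℂ × ℂ | ∀ i ∈ J, 1 / ((N : ℝ) + 1) ≤ ‖Fm n i p - p.2‖} =
          ⋂ i ∈ J, {p : ℂ × ℂ | 1 / ((N : ℝ) + 1) ≤ ‖Fm n i p - p.2‖} := by
        ext p
        simp
      rw [this]
      exact isClosed_biInter fun i _ =>
        isClosed_le continuous_const (((Fm_cont n i).sub continuous_snd).norm)
    exact h1.inter (h2.inter (h3.inter h4))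
  have heq : {c : ℂ | ∃ z, Fm n m (c, z) = z ∧ ‖Dm n m (c, z)‖ < 1 ∧ ∀ i ∈ J, Fm n i (c, z) ≠ z} =
      ⋃ N : ℕ, {c | ∃ z, (c, z) ∈ K N} := by
    ext c
    simp only [mem_setOf_eq, mem_iUnion]
    constructor
    · rintro ⟨z, hz1, hz2, hz3⟩
      have hlim := tendsto_one_div_add_atTop_nhds_zero_nat (𝕜 := ℝ)
      have e1 : ∀ᶠ N : ℕ in atTop, ‖z‖ ≤ (N : ℝ) :=
        (tendsto_natCast_atTop_atTop (R := ℝ)).eventually_ge_atTop _
      have e2 : ∀ᶠ N : ℕ in atTop, 1 / ((N : ℝ) + 1) < 1 - ‖Dm n m (c, z)‖ :=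
        hlim.eventually (gt_mem_nhds (by linarith))
      have e3 : ∀ᶠ N : ℕ in atTop, ∀ i ∈ J, 1 / ((N : ℝ) + 1) < ‖Fm n i (c, z) - z‖ := by
        rw [Filter.eventually_all_finset]
        intro i hi
        exact hlim.eventually (gt_mem_nhds (norm_pos_iff.2 (sub_ne_zero.2 (hz3 i hi))))
      obtain ⟨N, h1, h2, h3⟩ := (e1.and (e2.and e3)).exists
      exact ⟨N, z, h1, hz1, by linarith, fun i hi => (h3 i hi).le⟩
    · rintro ⟨N, z, h1, h2, h3, h4⟩
      have hN : 0 < 1 / ((N : ℝ) + 1) := by positivity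
      refine ⟨z, h2, by linarith, fun i hi h5 => ?_⟩
      have h6 := h4 i hi
      simp only at h6
      rw [h5, sub_self, norm_zero] at h6
      linarith
  rw [heq]
  exact MeasurableSet.iUnion fun N => (closed_proj (hK N) N (fun p hp => hp.1)).measurableSet

lemma attr_iff (n m : ℕ) (c z : ℂ) : N62a1eb23.IsAttractingCycle (f n c) m z ↔
    0 < m ∧ Fm n m (c, z) = z ∧ ‖Dm n m (c, z)‖ < 1 := by
  unfold N62a1eb23.IsAttractingCycle
  rw [(hasDeriv n m c z).deriv]
  constructor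
  · rintro ⟨h1, h2, _, h3⟩
    exact ⟨h1, h2, h3⟩
  · rintro ⟨h1, h2, h3⟩
    exact ⟨h1, h2, (hasDeriv n m c z).differentiableAt, h3⟩

lemma meas_attr (n m : ℕ) : MeasurableSet {c : ℂ | ∃ z, N62a1eb23.IsAttractingCycle (f n c) m z} := by
  rcases Nat.eq_zero_or_pos m with rfl | hm
  · convert MeasurableSet.empty
    ext c
    simp [N62a1eb23.IsAttractingCycle]
  · convert meas_gen n m ∅ using 1
    ext c
    simp only [mem_setOf_eq, attr_iff]
    simp [hm]

lemma meas_Ex (n m : ℕ) : MeasurableSet {c : ℂ | ∃ z, N62a1eb23.IsAttractingCycle (f n c) m z ∧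
    Function.minimalPeriod (f n c) z = m} := by
  rcases Nat.eq_zero_or_pos m with rfl | hm
  · convert MeasurableSet.empty
    ext c
    simp [N62a1eb23.IsAttractingCycle]
  · convert meas_gen n m (Finset.Ioo 0 m) using 1
    ext c
    simp only [mem_setOf_eq, attr_iff]
    refine exists_congr fun z => ?_
    constructor
    · rintro ⟨⟨_, h1, h2⟩, h3⟩
      refine ⟨h1, h2, fun i hi h4 => ?_⟩
      rw [Finset.mem_Ioo] at hi
      have h5 : Function.IsPeriodicPt (f n c) i z := h4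
      have h6 := h5.minimalPeriod_le hi.1
      omega
    · rintro ⟨h1, h2, h3⟩
      refine ⟨⟨hm, h1, h2⟩, ?_⟩
      have h4 : Function.IsPeriodicPt (f n c) m z := h1
      have h5 := h4.minimalPeriod_pos hm
      have h6 := h4.minimalPeriod_le hm
      rcases h6.eq_or_lt with h7 | h7
      · exact h7
      · exact absurd (Function.isPeriodicPt_minimalPeriod (f n c) z)
          (h3 _ (Finset.mem_Ioo.2 ⟨h5, h7⟩))

theorem main : Pool.Agent.N228.AZ.P_MEAS :=
  fun n _ => ⟨meas_multi n, fun m => ⟨meas_Ex n m, meas_attr n m⟩⟩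

end Pool.Agent.N498.AZ
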